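import Pool.Agent.V60.EV.Inst

/-!
# Prime pairs in the interval `(n + 4, 2 ^ (n + 4))`: differences from an arbitrary set of integers

Among any 289 integers two have a difference that is, for a given large `n` and a given
`Y ≥ (n + 4) (log (n + 4)) ^ B`, the difference of at least `Y / (log Y) ^ B` pairs of consecutive primes of
the interval `(n + 4, Y]`; also in residue classes. helper60.
-/

set_option autoImplicit false

open Filter

namespace Pool.Agent.Results.MP_b51559_nt.ArbitrarySetsEveryScale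

open Pool.Agent.Helper245.G45 (left left_mono)
open Pool.Agent.V60.EV

/-- the primes `p ≡ r (mod q)` of `(n + 4, Y]` for which `p + d ≤ Y` is the next prime -/
def Pairs (q : ℕ) (r : ℤ) (d n Y : ℕ) : Set ℕ :=
  {p : ℕ | n + 4 < p ∧ p + d ≤ Y ∧ (p : ℤ) ≡ r [ZMOD q] ∧ p.Prime ∧ (p + d).Prime ∧
    ∀ m : ℕ, p < m → m < p + d → ¬ m.Prime}

/-- `13082761331670030` is the product of the primes up to `43`. -/
theorem result : ∃ B : ℕ, ∀ (q : ℕ) (r : ℤ), 0 < q → IsCoprime r (q : ℤ) →
    ∀ S : Finset ℤ, (∀ a ∈ S, ∀ b ∈ S, a ≡ b [ZMOD q]) →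
      (289 ≤ S.card ∨ (2 ∣ q ∧ 145 ≤ S.card) ∨ (6 ∣ q ∧ 97 ≤ S.card) ∨ (30 ∣ q ∧ 78 ≤ S.card) ∨
        (210 ∣ q ∧ 67 ≤ S.card) ∨ (2310 ∣ q ∧ 61 ≤ S.card) ∨ (30030 ∣ q ∧ 57 ≤ S.card) ∨
        (13082761331670030 ∣ q ∧ 45 ≤ S.card)) →
      ∃ n₀ : ℕ, ∀ n : ℕ, n₀ ≤ n → ∀ Y : ℕ, ((n : ℝ) + 4) * Real.log (n + 4) ^ B ≤ Y →
        ∃ a ∈ S, ∃ b ∈ S, a < b ∧
          (Y : ℝ) / Real.log Y ^ B ≤ ((Pairs q r (b - a).toNat n Y).ncard : ℝ) := by
  refine ⟨BB, fun q r hq hr S hS hcard => ?_⟩
  have key : ∀ (L : List ℕ) (n Q : ℕ), (∀ p ∈ L, p.Prime) →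
      (∀ p : ℕ, p.Prime → p ≤ 43 → p ∣ Q ∨ p ∈ L) → left L n = 45 → Q ∣ q → n ≤ S.card →
      ∃ n₀ : ℕ, ∀ n : ℕ, n₀ ≤ n → ∀ Y : ℕ, ((n : ℝ) + 4) * Real.log (n + 4) ^ BB ≤ Y →
        ∃ a ∈ S, ∃ b ∈ S, a < b ∧
          (Y : ℝ) / Real.log Y ^ BB ≤ ((winPr q r (b - a).toNat n Y).ncard : ℝ) := by
    intro L n Q h1 h2 h3 h4 h5
    refine set_win q hq r hr S hS L h1 (fun p hp hp43 => (h2 p hp hp43).imp (fun h => h.trans h4) id) ?_
    rw [← h3]
    exact left_mono L h5
  rcases hcard with h | ⟨hd, h⟩ | ⟨hd, h⟩ | ⟨hd, h⟩ | ⟨hd, h⟩ | ⟨hd, h⟩ | ⟨hd, h⟩ | ⟨hd, h⟩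
  · refine key [2, 3, 5, 7, 11, 13, 17, 19, 23, 29, 31, 37, 41, 43] 289 1 ?_ ?_ (by decide) (one_dvd _) h
    · intro p hp; fin_cases hp <;> norm_num
    · intro p hp h43
      have := hp.two_le
      interval_cases p <;> first | exact absurd hp (by decide) | exact Or.inr (by decide)
  · refine key [3, 5, 7, 11, 13, 17, 19, 23, 29, 31, 37, 41, 43] 145 2 ?_ ?_ (by decide) hd h
    · intro p hp; fin_cases hp <;> norm_num
    · intro p hp h43
      have := hp.two_le
      interval_cases p <;> first | exact absurd hp (by decide) | exact Or.inl (by decide) | exact Or.inr (by decide)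
  · refine key [5, 7, 11, 13, 17, 19, 23, 29, 31, 37, 41, 43] 97 6 ?_ ?_ (by decide) hd h
    · intro p hp; fin_cases hp <;> norm_num
    · intro p hp h43
      have := hp.two_le
      interval_cases p <;> first | exact absurd hp (by decide) | exact Or.inl (by decide) | exact Or.inr (by decide)
  · refine key [7, 11, 13, 17, 19, 23, 29, 31, 37, 41, 43] 78 30 ?_ ?_ (by decide) hd h
    · intro p hp; fin_cases hp <;> norm_num
    · intro p hp h43
      have := hp.two_le
      interval_cases p <;> first | exact absurd hp (by decide) | exact Or.inl (by decide) | exact Or.inr (by decide)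
  · refine key [11, 13, 17, 19, 23, 29, 31, 37, 41, 43] 67 210 ?_ ?_ (by decide) hd h
    · intro p hp; fin_cases hp <;> norm_num
    · intro p hp h43
      have := hp.two_le
      interval_cases p <;> first | exact absurd hp (by decide) | exact Or.inl (by decide) | exact Or.inr (by decide)
  · refine key [13, 17, 19, 23, 29, 31, 37, 41, 43] 61 2310 ?_ ?_ (by decide) hd h
    · intro p hp; fin_cases hp <;> norm_num
    · intro p hp h43
      have := hp.two_le
      interval_cases p <;> first | exact absurd hp (by decide) | exact Or.inl (by decide) | exact Or.inr (by decide)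
  · refine key [17, 19, 23, 29, 31, 37, 41, 43] 57 30030 ?_ ?_ (by decide) hd h
    · intro p hp; fin_cases hp <;> norm_num
    · intro p hp h43
      have := hp.two_le
      interval_cases p <;> first | exact absurd hp (by decide) | exact Or.inl (by decide) | exact Or.inr (by decide)
  · refine key [] 45 13082761331670030 (by simp) ?_ rfl hd h
    intro p hp h43
    have := hp.two_le
    interval_cases p <;> first | exact absurd hp (by decide) | exact Or.inl (by decide)

end Pool.Agent.Results.MP_b51559_nt.ArbitrarySetsEveryScale
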