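import Pool.Agent.V60.EV.Inst
import Pool.Agent.Helper245.G45.Sets

/-!
# Prime pairs in the interval `(n + 4, 2 ^ (n + 4))`: one of the first 106 multiples of an even number

For every even `N > 0`, every class `r` prime to `N`, every large `n` and every
`Y ≥ (n + 4) (log (n + 4)) ^ B` (for instance `Y = 2 ^ (n + 4)`) one of `N, 2 N, ..., 106 N` is the
difference of at least `Y / (log Y) ^ B` pairs of consecutive primes `p ≡ r (mod N)`, `p + k N` of the
interval `(n + 4, Y]`; `B` is an absolute constant. helper60.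
-/

set_option autoImplicit false

open Filter

namespace Pool.Agent.Results.MP_b51559_nt.FirstMultiplesEveryScale

open Pool.Agent.Helper245.G45 Pool.Agent.V60.EV

/-- the primes `p ≡ r (mod N)` of `(n + 4, Y]` for which `p + d ≤ Y` is the next prime -/
def Pairs (N : ℕ) (r : ℤ) (d n Y : ℕ) : Set ℕ :=
  {p : ℕ | n + 4 < p ∧ p + d ≤ Y ∧ (p : ℤ) ≡ r [ZMOD N] ∧ p.Prime ∧ (p + d).Prime ∧
    ∀ m : ℕ, p < m → m < p + d → ¬ m.Prime}

/-- `13082761331670030` is the product of the primes up to `43`. -/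
theorem result : ∃ B : ℕ, ∀ (N : ℕ) (r : ℤ), 0 < N → 2 ∣ N → IsCoprime r (N : ℤ) →
    ∃ n₀ : ℕ, ∀ n : ℕ, n₀ ≤ n → ∀ Y : ℕ, ((n : ℝ) + 4) * Real.log (n + 4) ^ B ≤ Y →
      ∃ k : ℕ, 1 ≤ k ∧ k ≤ 106 ∧ (6 ∣ N → k ≤ 73) ∧ (30 ∣ N → k ≤ 61) ∧ (210 ∣ N → k ≤ 54) ∧
        (2310 ∣ N → k ≤ 51) ∧ (30030 ∣ N → k ≤ 49) ∧ (13082761331670030 ∣ N → k ≤ 44) ∧
        (Y : ℝ) / Real.log Y ^ B ≤ ((Pairs N r (k * N) n Y).ncard : ℝ) := by
  refine ⟨BB, fun N r hN h2 hr => ?_⟩
  by_cases h43 : 13082761331670030 ∣ N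
  · obtain ⟨n₀, hn₀⟩ := mult_win N hN r hr (Finset.range 45) (by simp) 44
      (fun e he => by have := Finset.mem_range.1 he; omega)
      (fun p hp hp43 => (P43_cls p hp hp43).imp (fun h => h.trans h43) id)
    refine ⟨n₀, fun n hn Y hY => ?_⟩
    obtain ⟨k, h1, hk, h⟩ := hn₀ n hn Y hY
    exact ⟨k, h1, by omega, fun _ => by omega, fun _ => by omega, fun _ => by omega, fun _ => by omega,
      fun _ => by omega, fun _ => hk, h⟩
  by_cases h13 : 30030 ∣ N
  · obtain ⟨n₀, hn₀⟩ := mult_win N hN r hr E49 E49_card.ge 49 E49_le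
      (fun p hp hp43 => (E49_cls p hp hp43).imp (fun h => h.trans h13) id)
    refine ⟨n₀, fun n hn Y hY => ?_⟩
    obtain ⟨k, h1, hk, h⟩ := hn₀ n hn Y hY
    exact ⟨k, h1, by omega, fun _ => by omega, fun _ => by omega, fun _ => by omega, fun _ => by omega,
      fun _ => hk, fun h => absurd h h43, h⟩
  by_cases h11 : 2310 ∣ N
  · obtain ⟨n₀, hn₀⟩ := mult_win N hN r hr E51 E51_card.ge 51 E51_le
      (fun p hp hp43 => (E51_cls p hp hp43).imp (fun h => h.trans h11) id)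
    refine ⟨n₀, fun n hn Y hY => ?_⟩
    obtain ⟨k, h1, hk, h⟩ := hn₀ n hn Y hY
    exact ⟨k, h1, by omega, fun _ => by omega, fun _ => by omega, fun _ => by omega, fun _ => hk,
      fun h => absurd h h13, fun h => absurd h h43, h⟩
  by_cases h7 : 210 ∣ N
  · obtain ⟨n₀, hn₀⟩ := mult_win N hN r hr E54 E54_card.ge 54 E54_le
      (fun p hp hp43 => (E54_cls p hp hp43).imp (fun h => h.trans h7) id)
    refine ⟨n₀, fun n hn Y hY => ?_⟩
    obtain ⟨k, h1, hk, h⟩ := hn₀ n hn Y hY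
    exact ⟨k, h1, by omega, fun _ => by omega, fun _ => by omega, fun _ => hk, fun h => absurd h h11,
      fun h => absurd h h13, fun h => absurd h h43, h⟩
  by_cases h5 : 30 ∣ N
  · obtain ⟨n₀, hn₀⟩ := mult_win N hN r hr E61 E61_card.ge 61 E61_le
      (fun p hp hp43 => (E61_cls p hp hp43).imp (fun h => h.trans h5) id)
    refine ⟨n₀, fun n hn Y hY => ?_⟩
    obtain ⟨k, h1, hk, h⟩ := hn₀ n hn Y hY
    exact ⟨k, h1, by omega, fun _ => by omega, fun _ => hk, fun h => absurd h h7, fun h => absurd h h11,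
      fun h => absurd h h13, fun h => absurd h h43, h⟩
  by_cases h3 : 6 ∣ N
  · obtain ⟨n₀, hn₀⟩ := mult_win N hN r hr E73 E73_card.ge 73 E73_le
      (fun p hp hp43 => (E73_cls p hp hp43).imp (fun h => h.trans h3) id)
    refine ⟨n₀, fun n hn Y hY => ?_⟩
    obtain ⟨k, h1, hk, h⟩ := hn₀ n hn Y hY
    exact ⟨k, h1, by omega, fun _ => hk, fun h => absurd h h5, fun h => absurd h h7, fun h => absurd h h11,
      fun h => absurd h h13, fun h => absurd h h43, h⟩
  obtain ⟨n₀, hn₀⟩ := mult_win N hN r hr E106 E106_card.ge 106 E106_le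
      (fun p hp hp43 => (E106_cls p hp hp43).imp (fun h => h.trans h2) id)
  refine ⟨n₀, fun n hn Y hY => ?_⟩
  obtain ⟨k, h1, hk, h⟩ := hn₀ n hn Y hY
  exact ⟨k, h1, hk, fun h => absurd h h3, fun h => absurd h h5, fun h => absurd h h7,
    fun h => absurd h h11, fun h => absurd h h13, fun h => absurd h h43, h⟩

end Pool.Agent.Results.MP_b51559_nt.FirstMultiplesEveryScale
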