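import Pool.Agent.H225.FX

/-!
# Almost twin primes in every short block inside `(n + 4, 2 ^ (n + 4))`, isolated, with restricted digits

Let `b ≥ 2` be a base and `[M, M + b^K)` any block of integers inside the interval from `n + 4` to
`2^(n+4)` whose length `b^K` is at least a fixed (arbitrarily small) power of `M`.  Write `m = M + t` and
let the digits of `t < b^K` be restricted: the `i`-th digit belongs to a set `A i`, where the sets `A i`
are arbitrary, depend on the place `i < K`, and have the only property that the number `∏ |A i|` of these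
`m` is at least `e^{-δK} b^K`, where the constant `δ > 0` does not depend on `b`.

Then for EVERY `n` and every such block at least `κ ∏ |A i| / K ^ 2` of these `m` lie between `n + 4` and
`2^(n+4)` and are such that `m` and `m + 2` have at most `r` prime factors, all larger than `b^{K/r}`,
while every other integer in `[m, m + c K]` has a prime factor `≤ b^{K/r}` (if the last digit can be
chosen such that the two numbers are prime to `b`); and for at most `C ∏ |A i| / K ^ 2` of these `m` the
two numbers are twin primes.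

The method is a Brun–Hooley sieve with weights, whose level of distribution is obtained from the Fourier
transform of the set of the integers with restricted digits at rationals (large sieve in blocks of
digits), see `Pool/Agent/Y816/PD`; the other integers in `[m, m + c K]` are excluded by the upper bound for
patterns with one more element and an average of the sieve products (`Pool/Agent/H225/EX2`).
-/

set_option autoImplicit false

namespace Pool.Agent.Results.MP_b51559_nt.IsolatedWithDigits

open Finset Filter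

/-- The shape. -/
def Q : Finset ℕ := {0, 2}

open Classical in
/-- The number of the `n < b ^ K`, whose `i`-th digit in base `b` belongs to `A i` for all `i < K`, such
that `M + n` belongs to `T`. -/
noncomputable def count (b K M : ℕ) (A : ℕ → Finset ℕ) (T : Set ℕ) : ℕ :=
  ((range (b ^ K)).filter (fun n => (∀ i < K, n / b ^ i % b ∈ A i) ∧ M + n ∈ T)).card

/-- The number of choices of the digits. -/
noncomputable def choices (K : ℕ) (A : ℕ → Finset ℕ) : ℝ := ∏ i ∈ range K, ((A i).card : ℝ)

/-- All prime factors of `m` are larger than `z ^ (1 / r)`. -/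
def Rough (r z m : ℕ) : Prop := ∀ p : ℕ, p.Prime → p ∣ m → z < p ^ r

open Pool.Agent.Y816.PD (ND ND_sub)

lemma adm_Q : Pool.Agent.H225.EX.Adm Q := by
  intro p hp
  unfold Q
  by_cases h3 : p = 3
  · subst h3
    exact ⟨2, by decide⟩
  · refine ⟨1, fun q hq hd => ?_⟩
    simp only [mem_insert, mem_singleton] at hq
    rcases hq with rfl | rfl
    · exact hp.one_lt.ne' (Nat.dvd_one.1 hd)
    · exact h3 ((Nat.prime_dvd_prime_iff_eq hp Nat.prime_three).1 hd)

lemma card_Q : Q.card = 2 := by decide

/-- **Almost twin primes in every short block inside `(n + 4, 2 ^ (n + 4))`, isolated, at integers with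
restricted digits.** -/
theorem result (D : ℕ) :
    ∃ δ : ℝ, 0 < δ ∧ ∃ r₀ : ℕ, 2 ≤ r₀ ∧ ∀ r : ℕ, r₀ ≤ r → ∀ b : ℕ, 2 ≤ b →
      ∃ κ C c : ℝ, 0 < κ ∧ 0 < C ∧ 0 < c ∧ ∀ᶠ K : ℕ in atTop, ∀ n M : ℕ, n + 4 ≤ M →
        M + b ^ K + 2 ≤ 2 ^ (n + 4) → M ≤ b ^ (D * K) →
        ∀ A : ℕ → Finset ℕ, (∀ i < K, A i ⊆ range b) →
        (b : ℝ) ^ K ≤ Real.exp (δ * K) * choices K A →
        ((∃ e ∈ A 0, ∀ q ∈ Q, (M + e + q).Coprime b) → (∃ e ∈ A (K - 1), e ≠ 0) →
          κ * choices K A / (K : ℝ) ^ 2 ≤ count b K M A {m | n + 4 < m ∧ m + 2 < 2 ^ (n + 4) ∧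
            (∀ q ∈ Q, Rough r (b ^ K) (m + q) ∧ (m + q).primeFactorsList.length ≤ r) ∧
            ∀ j : ℕ, (j : ℝ) ≤ c * K → j ∉ Q → ¬ Rough r (b ^ K) (m + j)}) ∧
        (count b K M A {m | ∀ q ∈ Q, (m + q).Prime} : ℝ) ≤ C * choices K A / (K : ℝ) ^ 2 := by
  obtain ⟨δ, hδ, r₀, hr₀, h⟩ := Pool.Agent.H225.FX.fx Q ⟨0, by decide⟩ adm_Q D
  refine ⟨δ, hδ, r₀, hr₀, fun r hr b hb => ?_⟩
  obtain ⟨κ, C, c, hκ, hC, hc, h1⟩ := h r hr b hb
  refine ⟨κ, C, c, hκ, hC, hc, ?_⟩
  filter_upwards [h1, eventually_ge_atTop 2] with K hK hK2 n M hnM hM hMD A hA hprod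
  have hbK1 : 2 ≤ b ^ (K - 1) := hb.trans (Nat.le_self_pow (by omega) b)
  obtain ⟨h2, h3⟩ := hK M hMD A hA hprod
  rw [card_Q] at h2 h3
  refine ⟨fun hcop htop => (h2 hcop htop).trans (Nat.cast_le.2 (ND_sub fun t ht ht1 ht2 =>
    ⟨ht1, ?_⟩)), h3⟩
  obtain ⟨g1, g2, g3⟩ := ht2
  exact ⟨by omega, by omega, g2, g3⟩

end Pool.Agent.Results.MP_b51559_nt.IsolatedWithDigits
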