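import Pool.Agent.V11237.LP.PP
import Pool.Agent.V11237.LP.PtShort
import Pool.Agent.V11237.LP.PtInst
import Pool.Agent.Y879.PR.Inst

set_option autoImplicit false

/-!
# Almost prime twins in all subintervals of `(n + 4, 2 ^ (n + 4))`: gap laws, and the law after primes

Put `N = 2 ^ (n + 4)` and call `m` good if neither `m` nor `m + 2` has a prime factor `≤ N ^ (1 / r)`.

* In EVERY interval `(u, u + Y]` with `n + 4 ≤ u`, `u + Y + 2 < 2 ^ (n + 4)`, `Y ≥ N ^ θ`, the number of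
  the good `m` and the laws of their gaps are as expected;
* in every such interval of positive proportion of `[0, X]`, `X ≥ N ^ θ`, the number of the good `m`
  with `m` PRIME (or with `m + 2` prime) is as expected, and after these `m` the next good integers
  follow the Poisson law.
-/

namespace Pool.Agent.Results.MP_b51559_nt.LawsInEveryInterval

open Finset Filter

/-- Neither `m` nor `m + 2` has a prime factor `p ≤ N ^ (1 / r)`. -/
def Good (N r m : ℕ) : Prop :=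
  ∀ p : ℕ, p.Prime → (p : ℝ) ≤ (N : ℝ) ^ (1 / (r : ℝ)) → ¬ p ∣ m ∧ ¬ p ∣ m + 2

open Classical in
/-- The number of the good `m` in `(u, u + Y]` with fewer than `l` good integers in `[m - T, m)`. -/
noncomputable def G (N r l T u Y : ℕ) : ℕ :=
  ((Ioc u (u + Y)).filter (fun m => Good N r m ∧
    ((Ico (m - T) m).filter (fun s => Good N r s)).card < l)).card

/-- The product of `1 - 2 / p` over the primes `5 < p ≤ N ^ (1 / r)`. -/
noncomputable def V (N r : ℕ) : ℝ :=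
  ∏ p ∈ (Ioc 5 ⌊(N : ℝ) ^ (1 / (r : ℝ))⌋₊).filter Nat.Prime, (1 - 2 / (p : ℝ))

/-- The product of `1 - 1 / p` over the primes `p ≤ N ^ (1 / r)`. -/
noncomputable def U (N r : ℕ) : ℝ :=
  ∏ p ∈ (Icc 1 ⌊(N : ℝ) ^ (1 / (r : ℝ))⌋₊).filter Nat.Prime, (1 - 1 / (p : ℝ))

open Classical in
/-- The good `m` in `(A, A + L]` for which `m + t` is PRIME (`t = 0` or `t = 2`). -/
noncomputable def P (N r t A L : ℕ) : Finset ℕ :=
  (Ioc A (A + L)).filter (fun m => (m + t).Prime ∧ Good N r m)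

open Classical in
/-- The number of the good `s` in `(m, m + 30 T]` in the residue class of `m` modulo `30`. -/
noncomputable def Next (N r T m : ℕ) : ℕ :=
  ((Ioc m (m + 30 * T)).filter (fun s => s % 30 = m % 30 ∧ Good N r s)).card

/-- the shifts -/
def h2 : Fin 2 → ℕ := ![0, 2]

lemma good_iff (N r m : ℕ) : Pool.Agent.V11237.LP.PP.Good h2 N r m ↔ Good N r m := by
  unfold Pool.Agent.V11237.LP.PP.Good Good
  constructor
  · intro H p hp hpX
    exact ⟨H p hp hpX 0, H p hp hpX 1⟩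
  · intro H p hp hpX i
    fin_cases i
    · exact (H p hp hpX).1
    · exact (H p hp hpX).2

lemma good6 (N r m : ℕ) (hz : (3 : ℝ) ≤ (N : ℝ) ^ (1 / (r : ℝ))) :
    Pool.Agent.V11237.LP.Pt.Good 6 5 ![0, 2] N r m ↔ Good N r m := by
  rw [← good_iff]
  unfold Pool.Agent.V11237.LP.Pt.Good
  constructor
  · rintro ⟨-, H⟩
    exact H
  · intro H
    refine ⟨?_, H⟩
    have a1 := H 2 Nat.prime_two (by push_cast; linarith) 0
    have a2 := H 3 Nat.prime_three (by push_cast; linarith) 0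
    have a3 := H 3 Nat.prime_three (by push_cast; linarith) 1
    change ¬ 2 ∣ m + 0 at a1
    change ¬ 3 ∣ m + 0 at a2
    change ¬ 3 ∣ m + 2 at a3
    rw [add_zero] at a1 a2
    have h6 : m % 6 = 0 ∨ m % 6 = 1 ∨ m % 6 = 2 ∨ m % 6 = 3 ∨ m % 6 = 4 ∨ m % 6 = 5 := by omega
    rcases h6 with h | h | h | h | h | h
    · exact absurd (by omega : 2 ∣ m) a1
    · exact absurd (by omega : 3 ∣ m + 2) a3
    · exact absurd (by omega : 2 ∣ m) a1
    · exact absurd (by omega : 3 ∣ m) a2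
    · exact absurd (by omega : 2 ∣ m) a1
    · exact h

lemma V6 (N r : ℕ) (hz : (5 : ℝ) ≤ (N : ℝ) ^ (1 / (r : ℝ))) :
    Pool.Agent.V11237.LP.Pt.V 3 6 2 N r = V N r / 10 := by
  have h5 : 5 ≤ ⌊(N : ℝ) ^ (1 / (r : ℝ))⌋₊ := Nat.le_floor (by exact_mod_cast hz)
  unfold Pool.Agent.V11237.LP.Pt.V V
  obtain ⟨z, hzz⟩ : ∃ z, z = ⌊(N : ℝ) ^ (1 / (r : ℝ))⌋₊ := ⟨_, rfl⟩
  rw [← hzz] at h5 ⊢
  have hs : (Ioc 3 z).filter Nat.Prime = insert 5 ((Ioc 5 z).filter Nat.Prime) := by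
    ext p
    simp only [mem_filter, mem_Ioc, mem_insert]
    constructor
    · rintro ⟨⟨h1, h2⟩, h3⟩
      by_cases h6 : 5 < p
      · exact Or.inr ⟨⟨h6, h2⟩, h3⟩
      · have : p = 4 ∨ p = 5 := by omega
        rcases this with rfl | rfl
        · exact absurd h3 (by decide)
        · exact Or.inl rfl
    · rintro (rfl | ⟨⟨h1, h2⟩, h3⟩)
      · exact ⟨⟨by norm_num, h5⟩, Nat.prime_five⟩
      · exact ⟨⟨by omega, h2⟩, h3⟩
  rw [hs, Finset.prod_insert (by simp)]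
  push_cast
  ring

lemma pat2 : Pool.Agent.Y879.PR.Pat2 30 h2 {11, 17, 29} where
  tup := by
    intro c hc
    rw [Finset.mem_insert, Finset.mem_insert, Finset.mem_singleton] at hc
    rcases hc with rfl | rfl | rfl
    · exact ⟨Pool.Agent.Y879.PR.sq30, by decide, fun p hp h => Pool.Agent.Y879.PR.pr30 p hp (by omega),
        by decide, by decide, by norm_num⟩
    · exact ⟨Pool.Agent.Y879.PR.sq30, by decide, fun p hp h => Pool.Agent.Y879.PR.pr30 p hp (by omega),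
        by decide, by decide, by norm_num⟩
    · exact ⟨Pool.Agent.Y879.PR.sq30, by decide, fun p hp h => Pool.Agent.Y879.PR.pr30 p hp (by omega),
        by decide, by decide, by norm_num⟩
  one := by decide
  lt := by decide
  cls := by
    intro m hm
    have a1 := Pool.Agent.Y879.PR.red m 0 2 (by norm_num) (hm 2 Nat.prime_two (by norm_num) 0)
    have a2 := Pool.Agent.Y879.PR.red m 0 3 (by norm_num) (hm 3 Nat.prime_three (by norm_num) 0)
    have a3 := Pool.Agent.Y879.PR.red m 2 3 (by norm_num) (hm 3 Nat.prime_three (by norm_num) 1)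
    have a4 := Pool.Agent.Y879.PR.red m 0 5 (by norm_num) (hm 5 Nat.prime_five (by norm_num) 0)
    have a5 := Pool.Agent.Y879.PR.red m 2 5 (by norm_num) (hm 5 Nat.prime_five (by norm_num) 1)
    have key : ∀ s ∈ Finset.range 30, (¬ 2 ∣ s + 0 ∧ ¬ 3 ∣ s + 0 ∧ ¬ 3 ∣ s + 2 ∧ ¬ 5 ∣ s + 0 ∧
      ¬ 5 ∣ s + 2) → s ∈ ({11, 17, 29} : Finset ℕ) := by decide
    exact key _ (Finset.mem_range.2 (Nat.mod_lt _ (by norm_num))) ⟨a1, a2, a3, a4, a5⟩
  dif := by
    intro p hp hM i j hij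
    apply Pool.Agent.Y879.PR.dif30 p hp hM
    revert i j
    decide
  zero := ⟨0, rfl⟩
  pos := by norm_num

/-- **Almost prime twins in the subintervals of `(n + 4, 2 ^ (n + 4))`.** -/
theorem result (θ δ : ℝ) (hθ : 0 < θ) (hδ : 0 < δ) (hδ1 : δ ≤ 1) (l₀ : ℕ) (x₀ ε : ℝ) (hε : 0 < ε)
    (hε1 : ε ≤ 1) :
    ∃ r₀ : ℕ, 2 ≤ r₀ ∧ ∀ r : ℕ, r₀ ≤ r → ∃ n₀ : ℕ, ∀ n : ℕ, n₀ ≤ n → ∀ N : ℕ, N = 2 ^ (n + 4) →
      ((∀ m : ℕ, m ≤ N → Good N r m →
          m.primeFactorsList.length ≤ r ∧ (m + 2).primeFactorsList.length ≤ r) ∧ 0 < V N r) ∧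
      (∀ u Y : ℕ, n + 4 ≤ u → u + Y + 2 < 2 ^ (n + 4) → (N : ℝ) ^ θ ≤ Y →
        ∀ l T : ℕ, (l ≤ l₀ ∨ T * (V N r / 10) ≤ x₀) →
        |(G N r l T u Y : ℝ) - Y * (V N r / 10) *
          ∑ j ∈ range l, Real.exp (-(T * (V N r / 10))) * (T * (V N r / 10)) ^ j / j.factorial| ≤
        ε * (Y * (V N r / 10))) ∧
      ∀ t X : ℕ, (t = 0 ∨ t = 2) → (N : ℝ) ^ θ ≤ X → ∀ A L : ℕ, n + 4 ≤ A → A + L + 2 < 2 ^ (n + 4) →
        δ * X ≤ L → A + L ≤ X →
        |((P N r t A L).card : ℝ) * Real.log X - L * (V N r / 10 / U N r)| ≤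
          ε * (L * (V N r / 10 / U N r)) ∧
        ∀ T : ℕ, T * V N r ≤ x₀ → ∀ B : Finset ℕ,
        |(((P N r t A L).filter (fun m => Next N r T m ∈ B)).card : ℝ) -
          (P N r t A L).card *
            ∑ j ∈ B, Real.exp (-(T * V N r)) * (T * V N r) ^ j / j.factorial| ≤
          ε * (P N r t A L).card := by
  classical
  obtain ⟨r1, hr1, H1⟩ := Pool.Agent.V11237.LP.Pt.short Pool.Agent.V11237.LP.Pt.pat_twin (by decide) θ hθ
    l₀ x₀ ε hε
  obtain ⟨r2, hr2, H2⟩ := Pool.Agent.V11237.LP.PP.law pat2 (by decide) θ δ hθ hδ hδ1 x₀ ε hε hε1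
  refine ⟨max r1 r2, hr1.trans (le_max_left _ _), ?_⟩
  intro r hr
  obtain ⟨N1, H1⟩ := H1 r ((le_max_left _ _).trans hr)
  obtain ⟨N2, H2⟩ := H2 r ((le_max_right _ _).trans hr)
  have hr0 : (0 : ℝ) < r := by
    have : 0 < r := by
      have := (le_max_left r1 r2).trans hr
      omega
    exact_mod_cast this
  obtain ⟨N3, H3⟩ := eventually_atTop.1
    (((tendsto_rpow_atTop (by positivity : 0 < 1 / (r : ℝ))).comp
      tendsto_natCast_atTop_atTop).eventually_ge_atTop (5 : ℝ))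
  refine ⟨N1 + N2 + N3 + 2, ?_⟩
  intro n hn N hN
  have hnN : n < N := by
    rw [hN]
    exact lt_of_lt_of_le n.lt_two_pow_self (Nat.pow_le_pow_right (by norm_num) (by omega))
  have h5 : (5 : ℝ) ≤ (N : ℝ) ^ (1 / (r : ℝ)) := H3 N (by omega)
  obtain ⟨⟨a1, a2⟩, a3⟩ := H1 N (by omega)
  obtain ⟨⟨b1, b2, b3⟩, b4⟩ := H2 N (by omega)
  have hVV : Pool.Agent.V11237.LP.PP.V 2 N r = V N r := by
    unfold Pool.Agent.V11237.LP.PP.V V
    norm_num
  have hUU : Pool.Agent.V11237.LP.PP.U N r = U N r := rfl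
  rw [V6 N r h5] at a2
  refine ⟨⟨?_, by linarith⟩, ?_, ?_⟩
  · intro m hm hg
    have h1 := b1 m hm ((good_iff N r m).2 hg)
    exact ⟨h1 0, h1 1⟩
  · intro u Y hu _ hY l T hlT
    have h1 := a3 u Y (by omega) hY l T (by rw [V6 N r h5]; exact hlT)
    rw [V6 N r h5] at h1
    have hG : Pool.Agent.V11237.LP.Pt.GS 6 5 ![0, 2] N r l T u Y = G N r l T u Y := by
      have hg := fun m => good6 N r m (by linarith : (3 : ℝ) ≤ (N : ℝ) ^ (1 / (r : ℝ)))
      unfold Pool.Agent.V11237.LP.Pt.GS G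
      simp only [hg]
    rw [hG] at h1
    exact h1
  · intro t X ht hX A L _ _ hL hAL
    have hP : ∀ i : Fin 2, Pool.Agent.V11237.LP.PP.P h2 N r i A L = P N r (h2 i) A L := by
      intro i
      unfold Pool.Agent.V11237.LP.PP.P P
      simp only [good_iff]
    have hW : ∀ T m, Pool.Agent.V11237.LP.PP.Next h2 N r T m = Next N r T m := by
      intro T m
      unfold Pool.Agent.V11237.LP.PP.Next Next
      simp only [good_iff]
    obtain ⟨i, hi⟩ : ∃ i : Fin 2, h2 i = t := by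
      rcases ht with rfl | rfl
      · exact ⟨0, rfl⟩
      · exact ⟨1, rfl⟩
    obtain ⟨g1, g2⟩ := b4 i X hX A L hL hAL
    rw [hP, hi, hVV, hUU] at g1
    have e : ((({11, 17, 29} : Finset ℕ).card : ℕ) : ℝ) / 30 * (L * (V N r / U N r)) =
        L * (V N r / 10 / U N r) := by
      have : (({11, 17, 29} : Finset ℕ).card : ℕ) = 3 := by decide
      rw [this]
      push_cast
      ring
    rw [e] at g1
    refine ⟨g1, fun T hT B => ?_⟩
    have g3 := g2 T (by rw [hVV]; exact hT) B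
    rw [hP, hi, hVV] at g3
    simp only [hW] at g3
    exact g3

end Pool.Agent.Results.MP_b51559_nt.LawsInEveryInterval
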